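import Pool.Agent.KS6_42.DX.Defs
import Pool.Agent.KS6_42.DX.Fin

/-!
# Self-extensions of `R` of every dimension, in characteristic `p`

Let `k` be any field of characteristic `p`, `n ≥ 1`, `R = k[x_1, …, x_n]`, and `r` any real number
in `[n, 2n]`. There is an extension `0 → R → M → R → 0` of `𝒟`-modules such that `M` is not
holonomic and has Bavula dimension exactly `r`.

`M = R ⊕ R e` with `e = ∑_l f_l`, `f_l = ∑_u x^(q_l m_u)`, where `q_l = p^(j_l)`, `u` runs over the
nonzero points of the box `[0, P_l)^n`, `P_l = p^(e_l)`, and the exponents `m_u ≡ u mod P_l` are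
spread out. Every operator commutes with all but finitely many `f_l`. At the scale `s` the block
`l` with `q_l ≤ s < q_(l+1)` contributes about `s^n min(s/q_l, P_l)^n` dimensions.
-/

set_option autoImplicit false

universe u

namespace Pool.Agent.Results.MP_66748c_al.AllDimensions

open Pool.Agent.KS6_42.DX

/-- **Extensions of holonomic modules in characteristic `p`.** For every field `k` of
characteristic `p`, every `n ≥ 1` and every real number `r` with `n ≤ r ≤ 2n` there is a
self-extension `M` of the holonomic module `R = k[x_1, …, x_n]` which is not holonomic, is finitely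
generated, and has Bavula dimension `r` with respect to every finite generating set. -/
theorem result (p : ℕ) [Fact p.Prime] (k : Type u) [Field k] [CharP k p] (n : ℕ) (hn : 1 ≤ n)
    (r : ℝ) (hr : n ≤ r) (hr' : r ≤ 2 * n) :
    ∃ (M : Type u) (_ : AddCommGroup M) (_ : Module k M) (_ : Module (DD k n) M)
      (_ : IsScalarTower k (DD k n) M)
      (f : Rn k n →ₗ[DD k n] M) (g : M →ₗ[DD k n] Rn k n),
      Function.Injective f ∧ Function.Exact f g ∧ Function.Surjective g ∧
        IsHolonomic k n (Rn k n) ∧ ¬ IsHolonomic k n M ∧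
        (∃ S : Finset M, Submodule.span (DD k n) (S : Set M) = ⊤) ∧
        ∀ S : Finset M, Submodule.span (DD k n) (S : Set M) = ⊤ →
          (∀ i, FiniteDimensional k (filt k n (S : Set M) i)) ∧
            bavulaDim k n (S : Set M) = r := by
  have : NeZero n := ⟨by omega⟩
  have hn' : (0 : ℝ) < n := by exact_mod_cast hn
  set θ : ℝ := r / n - 1 with hθ
  have hθ0 : 0 ≤ θ := by
    rw [hθ, sub_nonneg, one_le_div hn']; exact hr
  have hθ1 : θ ≤ 1 := by
    rw [hθ, sub_le_iff_le_add, div_le_iff₀ hn']; linarith
  have hrθ : (n : ℝ) * (1 + θ) = r := by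
    rw [hθ]; field_simp; ring
  obtain ⟨j, e, hg, he, hP1, hP2⟩ := exists_seq p n (th θ) (th_pos hθ0) (th_lt_one hθ1)
  have hf : EvComm (ff k p j e : ℕ → Rn k n) := evComm p hg
  obtain ⟨T, hT⟩ := exists_gensF hf
  have hTs : Submodule.span (DD k n) (T : Set (MM hf)) = ⊤ := by rw [hT]; exact span_gens hf
  have hU := ub p hg hf hθ0 hθ1 hP1
  have hL := lb p hg hf hθ1 he hP2
  rw [hrθ, ← hT] at hU hL
  refine ⟨MM hf, inferInstance, inferInstance, inferInstance, inferInstance, incl hf, proj hf,
    incl_injective hf, exact_incl_proj hf, proj_surjective hf, isHolonomic_Rn,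
    not_holonomic p hg hf he, ⟨T, hTs⟩, fun S hS => ⟨fun i => finite_filt S i, ?_⟩⟩
  exact bavulaDim_eq hTs (lt_of_lt_of_le hn' hr) hU hL hS

end Pool.Agent.Results.MP_66748c_al.AllDimensions
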